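import Pool.Agent.T3h36.PP.All
import Pool.Agent.T2h36.UniDefs

/-!
# No flag algebra certificate proves `π(K_4^-) ≤ 2/7`

A flag algebra (Cauchy–Schwarz, semidefinite) certificate of order `N` for the bound
`π(K_4^-) ≤ lam` is given by finitely many combinations `f k m j` of flags with `k` roots and `m ≥ 1`
further vertices, `k + 2 m ≤ N`, such that

  `d(G) + ∑_{k,m,j} [[(f k m j)²]](G) ≤ lam`   for every `K_4^-`-free 3-graph `G` on `N` vertices.

We show `lam > 2/7` for every certificate of every order `N`. So the method behind the known upper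
bounds (0.2871, ...) cannot prove the conjectured value `π(K_4^-) = 2/7` of Frankl and Füredi.

Proof. Let `B_D` be the set of the words of length `D` over a six-letter alphabet. Three words span an edge
if they are all equal, or if at the first position where they are not all equal the three letters
form a block of the design with 6 points and 10 blocks in which every pair of points is in two
blocks: this is the iterated blow-up of Frankl and Füredi of depth `D` whose bottom parts are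
*complete* 3-graphs (`nice`). Label the `N` vertices at random by words. The expected edge density is
`2/7 + (5/7) 36^(-D)`. If no four vertices have the same label, the labelled 3-graph is `K_4^-`-free
(`free_of_not_bad`): no four points of the design contain three blocks. Four vertices have the same
label with probability at most `N⁴ 216^(-D)` (`bad_le`). The expectation of the squares is nonnegative
(`sos_ge`), so `2/7 + (5/7) 36^(-D) ≤ lam + C N⁴ 216^(-D)` with a constant `C` which depends on the certificate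
only, and `lam > 2/7` follows for large `D`. In short: an iterated construction can be made denser by
`ε³` at the cost of `ε⁴` forbidden configurations, in a part of relative size `ε`.

The proof is due to helper36. It uses the files `Pool/Agent/T3h36/PP/T_SAMP.lean`, `T_EDGE.lean`
(helper34), `T_PAIR.lean` (helper84), `T_GRAPH.lean` (helper36) and what they import.
-/

set_option autoImplicit false
open Finset
open Pool.Agent.T2h36 Pool.Agent.T2h36.Uni Pool.Agent.T3h36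

namespace Pool.Agent.Results.MP_139b40_co.FlagBarrierIterated

/-- `G` contains no `K_4^-`: no four vertices span three edges -/
def K4mFree {V : Type} [DecidableEq V] (G : Finset (Finset V)) : Prop :=
  ∀ a b c d : V, a ≠ b → a ≠ c → a ≠ d → b ≠ c → b ≠ d → c ≠ d →
    ¬ ({a, b, c} ∈ G ∧ {a, b, d} ∈ G ∧ {a, c, d} ∈ G)

/-- the ten blocks of the design on six points with every pair in two blocks (as sums of `2^i`) -/
def blk (i j k : Fin 6) : Bool :=
  decide (i ≠ j) && decide (i ≠ k) && decide (j ≠ k) &&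
    [7, 11, 21, 41, 49, 38, 26, 50, 28, 44].contains (2 ^ (i : ℕ) + 2 ^ (j : ℕ) + 2 ^ (k : ℕ))

set_option maxRecDepth 20000 in
theorem blk_no (i j k l : Fin 6) : ¬ (blk i j k = true ∧ blk i j l = true ∧ blk i k l = true) := by
  revert i j k l
  decide

theorem blk_sym (i j k : Fin 6) : (blk i j k = true → blk j i k = true) ∧
    (blk i j k = true → blk i k j = true) := by
  revert i j k
  decide

theorem blk_ne (i j k : Fin 6) (h : blk i j k = true) : i ≠ j ∧ i ≠ k ∧ j ≠ k := by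
  revert i j k
  decide

theorem blk_card : (∑ i : Fin 6, ∑ j : Fin 6, ∑ k : Fin 6, (if blk i j k = true then (1 : ℕ) else 0)) = 60 := by
  decide

theorem diag_card : (∑ i : Fin 6, ∑ j : Fin 6, ∑ k : Fin 6, (if i = j ∧ j = k then (1 : ℕ) else 0)) = 6 := by
  decide

theorem sum_prod3 {B : Type} [Fintype B] (g : Fin 6 → Fin 6 → Fin 6 → ℝ) (h : B → B → B → ℝ) :
    ∑ x : Fin 6 × B, ∑ y : Fin 6 × B, ∑ z : Fin 6 × B, g x.1 y.1 z.1 * h x.2 y.2 z.2 =
      (∑ i, ∑ j, ∑ k, g i j k) * ∑ a, ∑ b, ∑ c, h a b c := by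
  simp only [Fintype.sum_prod_type]
  simp_rw [← Finset.sum_mul_sum]

open Classical in
/-- iterated blow-ups of the design with complete bottom parts -/
theorem nice (D : ℕ) : ∃ (B : Type) (_ : Fintype B) (R : B → B → B → Prop),
    (Fintype.card B : ℝ) = 6 ^ D ∧ (∀ a b c, (R a b c → R b a c) ∧ (R a b c → R a c b)) ∧
    (∀ a b c d, ¬ (a = b ∧ b = c ∧ c = d) → ¬ (R a b c ∧ R a b d ∧ R a c d)) ∧
    7 * (∑ a, ∑ b, ∑ c, if R a b c then (1 : ℝ) else 0) = 2 * 216 ^ D + 5 * 6 ^ D := by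
  induction D with
  | zero =>
    refine ⟨Unit, inferInstance, fun _ _ _ => True, by simp, by simp, ?_, by simp; norm_num⟩
    intro a b c d h
    exact absurd ⟨rfl, rfl, rfl⟩ h
  | succ D ih =>
    obtain ⟨B, inst, R, hcard, hsym, hno, hcount⟩ := ih
    refine ⟨Fin 6 × B, inferInstance, fun x y z => (x.1 = y.1 ∧ y.1 = z.1 ∧ R x.2 y.2 z.2) ∨
      blk x.1 y.1 z.1 = true, ?_, ?_, ?_, ?_⟩
    · rw [Fintype.card_prod, Fintype.card_fin]
      push_cast
      rw [hcard, pow_succ]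
      ring
    · intro x y z
      constructor
      · rintro (⟨h1, h2, h3⟩ | h)
        · exact Or.inl ⟨h1.symm, h1.trans h2, (hsym _ _ _).1 h3⟩
        · exact Or.inr ((blk_sym _ _ _).1 h)
      · rintro (⟨h1, h2, h3⟩ | h)
        · exact Or.inl ⟨h1.trans h2, h2.symm, (hsym _ _ _).2 h3⟩
        · exact Or.inr ((blk_sym _ _ _).2 h)
    · rintro x y z w hne ⟨h1, h2, h3⟩
      rcases h1 with ⟨e1, e2, r1⟩ | b1
      · rcases h2 with ⟨e3, e4, r2⟩ | b2
        · rcases h3 with ⟨e5, e6, r3⟩ | b3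
          · refine hno x.2 y.2 z.2 w.2 ?_ ⟨r1, r2, r3⟩
            rintro ⟨f1, f2, f3⟩
            exact hne ⟨Prod.ext e1 f1, Prod.ext e2 f2, Prod.ext e6 f3⟩
          · exact (blk_ne _ _ _ b3).1 (e1.trans e2)
        · exact (blk_ne _ _ _ b2).1 e1
      · obtain ⟨n1, n2, n3⟩ := blk_ne _ _ _ b1
        rcases h2 with ⟨e3, e4, r2⟩ | b2
        · exact n1 e3
        · rcases h3 with ⟨e5, e6, r3⟩ | b3
          · exact n2 e5
          · exact blk_no _ _ _ _ ⟨b1, b2, b3⟩
    · refine Eq.trans (congrArg (fun t => 7 * t) (Finset.sum_congr rfl fun x _ => Finset.sum_congr rfl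
        fun y _ => Finset.sum_congr rfl fun z _ => (?_ : _ =
          (if x.1 = y.1 ∧ y.1 = z.1 then (1 : ℝ) else 0) * (if R x.2 y.2 z.2 then (1 : ℝ) else 0) +
          (if blk x.1 y.1 z.1 = true then (1 : ℝ) else 0) * 1))) ?_
      · by_cases hb : blk x.1 y.1 z.1 = true
        · have hn : ¬ (x.1 = y.1 ∧ y.1 = z.1) := fun h => (blk_ne _ _ _ hb).1 h.1
          rw [if_pos (Or.inr hb), if_neg hn, if_pos hb]
          ring
        · rw [if_neg hb]
          by_cases h1 : x.1 = y.1 ∧ y.1 = z.1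
          · rw [if_pos h1]
            by_cases h2 : R x.2 y.2 z.2
            · rw [if_pos h2, if_pos (Or.inl ⟨h1.1, h1.2, h2⟩)]
              ring
            · rw [if_neg h2, if_neg]
              · ring
              · rintro (h | h)
                · exact h2 h.2.2
                · exact hb h
          · rw [if_neg h1, if_neg]
            · ring
            · rintro (h | h)
              · exact h1 ⟨h.1, h.2.1⟩
              · exact hb h
      simp only [Finset.sum_add_distrib]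
      rw [sum_prod3 (fun i j k => if i = j ∧ j = k then (1 : ℝ) else 0)
          (fun a b c => if R a b c then (1 : ℝ) else 0),
        sum_prod3 (fun i j k => if blk i j k = true then (1 : ℝ) else 0) (fun (_ _ _ : B) => (1 : ℝ))]
      have d1 : (∑ i : Fin 6, ∑ j : Fin 6, ∑ k : Fin 6, (if i = j ∧ j = k then (1 : ℝ) else 0)) = 6 := by
        exact_mod_cast congrArg (Nat.cast : ℕ → ℝ) diag_card
      have d2 : (∑ i : Fin 6, ∑ j : Fin 6, ∑ k : Fin 6, (if blk i j k = true then (1 : ℝ) else 0)) = 60 := by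
        exact_mod_cast congrArg (Nat.cast : ℕ → ℝ) blk_card
      have d3 : (∑ _a : B, ∑ _b : B, ∑ _c : B, (1 : ℝ)) = (6 ^ D) ^ 3 := by
        simp only [Finset.sum_const, Finset.card_univ, nsmul_eq_mul, mul_one]
        rw [hcard]
        ring
      rw [d1, d2, d3]
      have e6 : ((6 : ℝ) ^ D) ^ 3 = 216 ^ D := by
        rw [← pow_mul, mul_comm, pow_mul]
        norm_num
      rw [e6]
      have : 7 * (6 * (∑ a, ∑ b, ∑ c, if R a b c then (1 : ℝ) else 0) + 60 * 216 ^ D) =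
          6 * (7 * (∑ a, ∑ b, ∑ c, if R a b c then (1 : ℝ) else 0)) + 420 * 216 ^ D := by ring
      rw [this, hcount]
      ring


/-! ### random samples -/

section
variable {B : Type} [Fintype B]

/-- the rule on labels with (unused) marks -/
def R3 (R : B → B → B → Prop) (x y z : Fin 3 × B) : Prop := R x.2 y.2 z.2

theorem mk_nonneg (z : Fin 3) : 0 ≤ PP.mk 0 0 z := by
  unfold PP.mk
  split_ifs <;> norm_num

theorem W_nonneg {P : Type} [Fintype P] (β : B → ℝ) (hβ : ∀ p, 0 ≤ β p) (ℓ : P → Fin 3 × B) :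
    0 ≤ PP.W 0 0 β ℓ := by
  unfold PP.W
  exact Finset.prod_nonneg fun v _ => mul_nonneg (mk_nonneg _) (hβ _)

theorem sum_mk (β : B → ℝ) (g : B → ℝ) :
    ∑ x : Fin 3 × B, PP.mk 0 0 x.1 * β x.2 * g x.2 = ∑ p, β p * g p := by
  rw [Fintype.sum_prod_type, Fin.sum_univ_three]
  simp [PP.mk]

theorem mem_sym {V A : Type} [Fintype V] [DecidableEq V] (R : A → A → A → Prop)
    (hs : ∀ a b c, (R a b c → R b a c) ∧ (R a b c → R a c b)) (ℓ : V → A) {a b c : V} (hab : a ≠ b)
    (hac : a ≠ c) (hbc : b ≠ c) (h : ({a, b, c} : Finset V) ∈ PP.GG R ℓ) : R (ℓ a) (ℓ b) (ℓ c) := by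
  rw [PP.mem_GG] at h
  obtain ⟨a', b', c', h1, h2, h3, he, hR⟩ := h
  have ha : a ∈ ({a', b', c'} : Finset V) := by rw [← he]; simp
  have hb : b ∈ ({a', b', c'} : Finset V) := by rw [← he]; simp
  have hc : c ∈ ({a', b', c'} : Finset V) := by rw [← he]; simp
  have r1 := (hs _ _ _).1 hR
  have r2 := (hs _ _ _).2 hR
  have r3 := (hs _ _ _).1 r2
  have r4 := (hs _ _ _).2 r1
  have r5 := (hs _ _ _).1 r4
  simp only [Finset.mem_insert, Finset.mem_singleton] at ha hb hc
  rcases ha with ha | ha | ha <;> rcases hb with hb | hb | hb <;> rcases hc with hc | hc | hc <;>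
    first
    | exact absurd (ha.trans hb.symm) hab
    | exact absurd (ha.trans hc.symm) hac
    | exact absurd (hb.trans hc.symm) hbc
    | (rw [ha, hb, hc]; assumption)

/-- four vertices with the same label -/
def Bad {N : ℕ} (ℓ : Fin N → Fin 3 × B) : Prop :=
  ∃ S : Finset (Fin N), S.card = 4 ∧ ∃ v : B, ∀ u ∈ S, (ℓ u).2 = v

open Classical in
theorem free_of_not_bad {N : ℕ} (R : B → B → B → Prop)
    (hs : ∀ a b c, (R a b c → R b a c) ∧ (R a b c → R a c b))
    (hno : ∀ a b c d, ¬ (a = b ∧ b = c ∧ c = d) → ¬ (R a b c ∧ R a b d ∧ R a c d))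
    (ℓ : Fin N → Fin 3 × B) (h : ¬ Bad ℓ) : K4mFree (PP.GG (R3 R) ℓ) := by
  have hs3 : ∀ a b c, (R3 R a b c → R3 R b a c) ∧ (R3 R a b c → R3 R a c b) := fun a b c => hs _ _ _
  rintro a b c d hab hac had hbc hbd hcd ⟨h1, h2, h3⟩
  have e1 := mem_sym (R3 R) hs3 ℓ hab hac hbc h1
  have e2 := mem_sym (R3 R) hs3 ℓ hab had hbd h2
  have e3 := mem_sym (R3 R) hs3 ℓ hac had hcd h3
  refine hno _ _ _ _ ?_ ⟨e1, e2, e3⟩
  rintro ⟨f1, f2, f3⟩
  apply h
  refine ⟨{a, b, c, d}, ?_, (ℓ a).2, ?_⟩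
  · rw [Finset.card_insert_of_notMem (by simp [hab, hac, had]),
      Finset.card_insert_of_notMem (by simp [hbc, hbd]),
      Finset.card_insert_of_notMem (by simp [hcd]), Finset.card_singleton]
  · intro u hu
    simp only [Finset.mem_insert, Finset.mem_singleton] at hu
    rcases hu with rfl | rfl | rfl | rfl
    · rfl
    · exact f1.symm
    · exact (f1.trans f2).symm
    · exact (f1.trans (f2.trans f3)).symm

open Classical in
theorem sum_ind {N : ℕ} (β : B → ℝ) (hβ1 : ∑ p, β p = 1) (S : Finset (Fin N)) (v : B) :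
    ∑ ℓ : Fin N → Fin 3 × B, PP.W 0 0 β ℓ *
      ∏ u, (if u ∈ S then (if (ℓ u).2 = v then (1 : ℝ) else 0) else 1) = β v ^ S.card := by
  have e1 : ∀ ℓ : Fin N → Fin 3 × B, PP.W 0 0 β ℓ *
      ∏ u, (if u ∈ S then (if (ℓ u).2 = v then (1 : ℝ) else 0) else 1) =
      ∏ u, (PP.mk 0 0 (ℓ u).1 * β (ℓ u).2 *
        (if u ∈ S then (if (ℓ u).2 = v then (1 : ℝ) else 0) else 1)) := by
    intro ℓ
    unfold PP.W
    exact Finset.prod_mul_distrib.symm
  rw [Finset.sum_congr rfl fun ℓ _ => e1 ℓ]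
  have e2 := Finset.prod_univ_sum (fun _ : Fin N => (Finset.univ : Finset (Fin 3 × B)))
    (fun u x => PP.mk 0 0 x.1 * β x.2 *
        (if u ∈ S then (if x.2 = v then (1 : ℝ) else 0) else 1))
  rw [Fintype.piFinset_univ] at e2
  rw [← e2]
  have e3 : ∀ u : Fin N, ∑ x : Fin 3 × B, PP.mk 0 0 x.1 * β x.2 *
        (if u ∈ S then (if x.2 = v then (1 : ℝ) else 0) else 1) = if u ∈ S then β v else 1 := by
    intro u
    rw [sum_mk β (fun p => if u ∈ S then (if p = v then (1 : ℝ) else 0) else 1)]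
    by_cases hu : u ∈ S
    · simp only [if_pos hu]
      simp
    · simp only [if_neg hu, mul_one]
      exact hβ1
  rw [Finset.prod_congr rfl fun u _ => e3 u, Finset.prod_ite_mem, Finset.univ_inter,
    Finset.prod_const]

open Classical in
theorem bad_le {N : ℕ} (β : B → ℝ) (hβ : ∀ p, 0 ≤ β p) (hβ1 : ∑ p, β p = 1) :
    ∑ ℓ : Fin N → Fin 3 × B, PP.W 0 0 β ℓ * (if Bad ℓ then (1 : ℝ) else 0) ≤
      (N : ℝ) ^ 4 * ∑ v, β v ^ 4 := by
  have h1 : ∀ ℓ : Fin N → Fin 3 × B, (if Bad ℓ then (1 : ℝ) else 0) ≤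
      ∑ S ∈ (univ : Finset (Fin N)).powersetCard 4, ∑ v : B,
        ∏ u, (if u ∈ S then (if (ℓ u).2 = v then (1 : ℝ) else 0) else 1) := by
    intro ℓ
    have hnn : ∀ (S : Finset (Fin N)) (v : B),
        0 ≤ ∏ u, (if u ∈ S then (if (ℓ u).2 = v then (1 : ℝ) else 0) else 1) := by
      intro S v
      refine Finset.prod_nonneg fun u _ => ?_
      split_ifs <;> norm_num
    by_cases hb : Bad ℓ
    · rw [if_pos hb]
      obtain ⟨S, hS, v, hv⟩ := hb
      have h2 : (1 : ℝ) = ∏ u, (if u ∈ S then (if (ℓ u).2 = v then (1 : ℝ) else 0) else 1) := by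
        symm
        refine Finset.prod_eq_one fun u _ => ?_
        by_cases hu : u ∈ S
        · rw [if_pos hu, if_pos (hv u hu)]
        · rw [if_neg hu]
      refine le_trans h2.le ?_
      refine le_trans (Finset.single_le_sum (f := fun v : B =>
        ∏ u, (if u ∈ S then (if (ℓ u).2 = v then (1 : ℝ) else 0) else 1))
        (fun v _ => hnn S v) (Finset.mem_univ v)) ?_
      exact Finset.single_le_sum (f := fun S : Finset (Fin N) => ∑ v : B,
        ∏ u, (if u ∈ S then (if (ℓ u).2 = v then (1 : ℝ) else 0) else 1))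
        (fun S _ => Finset.sum_nonneg fun v _ => hnn S v)
        (Finset.mem_powersetCard.2 ⟨Finset.subset_univ S, hS⟩)
    · rw [if_neg hb]
      exact Finset.sum_nonneg fun S _ => Finset.sum_nonneg fun v _ => hnn S v
  calc ∑ ℓ : Fin N → Fin 3 × B, PP.W 0 0 β ℓ * (if Bad ℓ then (1 : ℝ) else 0)
      ≤ ∑ ℓ : Fin N → Fin 3 × B, PP.W 0 0 β ℓ *
        ∑ S ∈ (univ : Finset (Fin N)).powersetCard 4, ∑ v : B,
        ∏ u, (if u ∈ S then (if (ℓ u).2 = v then (1 : ℝ) else 0) else 1) :=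
        Finset.sum_le_sum fun ℓ _ => mul_le_mul_of_nonneg_left (h1 ℓ) (W_nonneg β hβ ℓ)
    _ = ∑ S ∈ (univ : Finset (Fin N)).powersetCard 4, ∑ v : B, ∑ ℓ : Fin N → Fin 3 × B,
        PP.W 0 0 β ℓ * ∏ u, (if u ∈ S then (if (ℓ u).2 = v then (1 : ℝ) else 0) else 1) := by
        simp_rw [Finset.mul_sum]
        rw [Finset.sum_comm]
        refine Finset.sum_congr rfl fun S _ => ?_
        rw [Finset.sum_comm]
    _ = ∑ S ∈ (univ : Finset (Fin N)).powersetCard 4, ∑ v : B, β v ^ 4 := by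
        refine Finset.sum_congr rfl fun S hS => Finset.sum_congr rfl fun v _ => ?_
        rw [sum_ind β hβ1 S v, (Finset.mem_powersetCard.1 hS).2]
    _ ≤ (N : ℝ) ^ 4 * ∑ v, β v ^ 4 := by
        rw [Finset.sum_const, Finset.card_powersetCard, Finset.card_univ, Fintype.card_fin, nsmul_eq_mul]
        refine mul_le_mul_of_nonneg_right ?_ (Finset.sum_nonneg fun v _ => pow_nonneg (hβ v) 4)
        exact_mod_cast Nat.choose_le_pow N 4

theorem sum_W {N : ℕ} (β : B → ℝ) (hβ1 : ∑ p, β p = 1) :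
    ∑ ℓ : Fin N → Fin 3 × B, PP.W 0 0 β ℓ = 1 := by
  classical
  have e2 := Finset.prod_univ_sum (fun _ : Fin N => (Finset.univ : Finset (Fin 3 × B)))
    (fun _ x => PP.mk 0 0 x.1 * β x.2)
  rw [Fintype.piFinset_univ] at e2
  unfold PP.W
  rw [← e2]
  refine Finset.prod_eq_one fun u _ => ?_
  have := sum_mk β (fun _ => 1)
  simp only [mul_one] at this
  rw [this, hβ1]

open Classical in
theorem edge_zero (N : ℕ) (hN : 3 ≤ N) (R : B → B → B → Prop)
    (hs : ∀ a b c, (R a b c → R b a c) ∧ (R a b c → R a c b)) (β : B → ℝ) (hβ1 : ∑ p, β p = 1) :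
    ∑ ℓ : Fin N → Fin 3 × B, PP.W 0 0 β ℓ * edgeDens (PP.GG (R3 R) ℓ) =
      ∑ a, ∑ b, ∑ c, β a * β b * β c * (if R a b c then (1 : ℝ) else 0) := by
  have h := PP.t_EDGE PP.t_GRAPH (PP.t_SAMP PP.t_GRAPH) (Fin N) B (R3 R) β 0 0 hβ1
    (fun a b c => hs _ _ _) (by rw [Fintype.card_fin]; exact hN)
  rw [h]
  simp only [add_zero, one_pow, one_mul]
  have e : ∀ F : (Fin 3 × B) → ℝ, (∀ x, x.1 ≠ 0 → F x = 0) → ∑ x, F x = ∑ p : B, F (0, p) := by
    intro F hF
    rw [Fintype.sum_prod_type, Fin.sum_univ_three]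
    have h1 : ∑ p : B, F (1, p) = 0 := Finset.sum_eq_zero fun p _ => hF _ (by simp)
    have h2 : ∑ p : B, F (2, p) = 0 := Finset.sum_eq_zero fun p _ => hF _ (by simp)
    rw [h1, h2]
    ring
  have hm : ∀ z : Fin 3, z ≠ 0 → PP.mk 0 0 z = 0 := by
    intro z hz
    unfold PP.mk
    rw [if_neg hz]
    split_ifs <;> rfl
  have h0 : PP.mk 0 0 0 = 1 := by simp [PP.mk]
  rw [e _ (fun x hx => by simp [hm _ hx])]
  refine Finset.sum_congr rfl fun a _ => ?_
  rw [e _ (fun x hx => by simp [hm _ hx])]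
  refine Finset.sum_congr rfl fun b _ => ?_
  rw [e _ (fun x hx => by simp [hm _ hx])]
  refine Finset.sum_congr rfl fun c _ => ?_
  simp only [h0, one_mul]
  rfl

theorem one_ge (N a b : ℕ) (hab : a + 2 * b ≤ N) (g : Finset (Finset (Fin a ⊕ Fin b)) → ℝ)
    (R : Fin 3 × B → Fin 3 × B → Fin 3 × B → Prop) (β : B → ℝ) (hβ : ∀ p, 0 ≤ β p)
    (hβ1 : ∑ p, β p = 1) :
    0 ≤ ∑ ℓ : Fin N → Fin 3 × B, PP.W 0 0 β ℓ * avg (square g) (PP.GG R ℓ) := by
  classical
  obtain ⟨-, hpull, -, -, -⟩ := PP.t_GRAPH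
  have hc : Fintype.card (Fin a ⊕ (Fin b ⊕ Fin b)) ≤ Fintype.card (Fin N) := by
    simp only [Fintype.card_sum, Fintype.card_fin]; omega
  obtain ⟨χ⟩ : Nonempty (Fin a ⊕ (Fin b ⊕ Fin b) ↪ Fin N) := Function.Embedding.nonempty_of_card_le hc
  have hsq : ∀ (ℓ : Fin N → Fin 3 × B), square g (PP.GG R (ℓ ∘ χ)) =
      g (PP.GG R (ℓ ∘ ((left a b).trans χ))) * g (PP.GG R (ℓ ∘ ((right a b).trans χ))) := by
    intro ℓ
    unfold square
    rw [hpull, hpull]
    rfl
  have h1 := PP.t_SAMP PP.t_GRAPH (Fin N) (Fin a ⊕ (Fin b ⊕ Fin b)) B R β 0 0 (fun _ => 1)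
    (fun _ _ => rfl) (square g) χ
  simp only [one_mul] at h1
  rw [h1]
  simp_rw [hsq]
  refine le_trans ?_ ((PP.pair_all (Fin N) (Fin a) (Fin b) B ((left a b).trans χ)
    ((right a b).trans χ) (fun c => rfl) (by
      intro x y h
      have := χ.injective h
      simp [left, right] at this) β hβ hβ1 0 0 le_rfl le_rfl).1 (fun ℓ => g (PP.GG R ℓ)))
  unfold PP.SS
  exact Finset.sum_nonneg fun c _ => mul_nonneg (W_nonneg β hβ c) (sq_nonneg _)

theorem sos_ge (N r : ℕ) (f : ∀ k m : ℕ, Fin r → Finset (Finset (Fin k ⊕ Fin m)) → ℝ)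
    (R : Fin 3 × B → Fin 3 × B → Fin 3 × B → Prop) (β : B → ℝ) (hβ : ∀ p, 0 ≤ β p)
    (hβ1 : ∑ p, β p = 1) :
    0 ≤ ∑ ℓ : Fin N → Fin 3 × B, PP.W 0 0 β ℓ * sos N r f (PP.GG R ℓ) := by
  unfold sos
  simp_rw [Finset.mul_sum]
  rw [Finset.sum_comm]
  refine Finset.sum_nonneg fun p hp => ?_
  rw [Finset.sum_comm]
  refine Finset.sum_nonneg fun j _ => ?_
  have : p.1 + 2 * p.2 ≤ N := by
    unfold pairs at hp
    rw [Finset.mem_filter] at hp
    exact hp.2.2
  exact one_ge N p.1 p.2 this _ R β hβ hβ1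

end

/-- **No flag algebra certificate of any order `N` proves `π(K_4^-) ≤ 2/7`.** If `d(G) + ∑ [[(f k m j)²]](G) ≤ lam`
for every `K_4^-`-free 3-graph `G` on `N` vertices, then `lam > 2/7`. -/
theorem result (N : ℕ) (hN : 3 ≤ N) (r : ℕ)
    (f : ∀ k m : ℕ, Fin r → Finset (Finset (Fin k ⊕ Fin m)) → ℝ) (lam : ℝ)
    (h : ∀ G : Finset (Finset (Fin N)), Is3 G → K4mFree G → edgeDens G + sos N r f G ≤ lam) :
    2 / 7 < lam := by
  classical
  by_contra hlam
  push Not at hlam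
  -- the largest excess
  obtain ⟨C, hC⟩ : ∃ C : ℝ, C = ∑ G : Finset (Finset (Fin N)), |edgeDens G + sos N r f G - lam| := ⟨_, rfl⟩
  have hC0 : 0 ≤ C := by rw [hC]; exact Finset.sum_nonneg fun _ _ => abs_nonneg _
  have hCG : ∀ G : Finset (Finset (Fin N)), edgeDens G + sos N r f G - lam ≤ C := by
    intro G
    refine (le_abs_self _).trans ?_
    rw [hC]
    exact Finset.single_le_sum (f := fun G : Finset (Finset (Fin N)) => |edgeDens G + sos N r f G - lam|)
      (fun _ _ => abs_nonneg _) (Finset.mem_univ G)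
  have key : ∀ D : ℕ, 5 * (6 : ℝ) ^ D ≤ 7 * C * (N : ℝ) ^ 4 := by
    intro D
    obtain ⟨B, inst, R, hcard, hsym, hno, hcount⟩ := nice D
    have h6 : (0 : ℝ) < 6 ^ D := by positivity
    have hcard0 : (Fintype.card B : ℝ) ≠ 0 := by rw [hcard]; exact h6.ne'
    let β : B → ℝ := fun _ => 1 / 6 ^ D
    have hβ : ∀ p, 0 ≤ β p := fun p => by positivity
    have hβ1 : ∑ p, β p = 1 := by
      show ∑ _p : B, (1 : ℝ) / 6 ^ D = 1
      rw [Finset.sum_const, Finset.card_univ, nsmul_eq_mul, hcard]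
      field_simp
    have h1 : ∀ ℓ : Fin N → Fin 3 × B, edgeDens (PP.GG (R3 R) ℓ) + sos N r f (PP.GG (R3 R) ℓ) ≤
        lam + C * (if Bad ℓ then (1 : ℝ) else 0) := by
      intro ℓ
      by_cases hb : Bad ℓ
      · rw [if_pos hb]
        have := hCG (PP.GG (R3 R) ℓ)
        linarith
      · rw [if_neg hb]
        have := h _ (PP.is3_GG (R3 R) ℓ) (free_of_not_bad R hsym hno ℓ hb)
        linarith
    have h2 : ∑ ℓ : Fin N → Fin 3 × B, PP.W 0 0 β ℓ *
        (edgeDens (PP.GG (R3 R) ℓ) + sos N r f (PP.GG (R3 R) ℓ)) ≤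
        ∑ ℓ : Fin N → Fin 3 × B, PP.W 0 0 β ℓ * (lam + C * (if Bad ℓ then (1 : ℝ) else 0)) :=
      Finset.sum_le_sum fun ℓ _ => mul_le_mul_of_nonneg_left (h1 ℓ) (W_nonneg β hβ ℓ)
    have h3 : ∑ ℓ : Fin N → Fin 3 × B, PP.W 0 0 β ℓ * (lam + C * (if Bad ℓ then (1 : ℝ) else 0)) =
        lam + C * ∑ ℓ : Fin N → Fin 3 × B, PP.W 0 0 β ℓ * (if Bad ℓ then (1 : ℝ) else 0) := by
      simp_rw [mul_add]
      rw [Finset.sum_add_distrib, ← Finset.sum_mul, sum_W β hβ1, one_mul, Finset.mul_sum]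
      congr 1
      refine Finset.sum_congr rfl fun ℓ _ => ?_
      ring
    have h4 : ∑ ℓ : Fin N → Fin 3 × B, PP.W 0 0 β ℓ *
        (edgeDens (PP.GG (R3 R) ℓ) + sos N r f (PP.GG (R3 R) ℓ)) =
        (∑ ℓ : Fin N → Fin 3 × B, PP.W 0 0 β ℓ * edgeDens (PP.GG (R3 R) ℓ)) +
        ∑ ℓ : Fin N → Fin 3 × B, PP.W 0 0 β ℓ * sos N r f (PP.GG (R3 R) ℓ) := by
      simp_rw [mul_add]
      rw [Finset.sum_add_distrib]
    have h5 := sos_ge N r f (R3 R) β hβ hβ1
    have h6' := edge_zero N hN R hsym β hβ1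
    have h7 : ∑ a, ∑ b, ∑ c, β a * β b * β c * (if R a b c then (1 : ℝ) else 0) =
        (1 / 6 ^ D) ^ 3 * ((2 * 216 ^ D + 5 * 6 ^ D) / 7) := by
      have : ∑ a, ∑ b, ∑ c, β a * β b * β c * (if R a b c then (1 : ℝ) else 0) =
          (1 / 6 ^ D) ^ 3 * ∑ a, ∑ b, ∑ c, (if R a b c then (1 : ℝ) else 0) := by
        simp_rw [Finset.mul_sum]
        refine Finset.sum_congr rfl fun a _ => Finset.sum_congr rfl fun b _ =>
          Finset.sum_congr rfl fun c _ => ?_
        show (1 : ℝ) / 6 ^ D * (1 / 6 ^ D) * (1 / 6 ^ D) * _ = _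
        ring
      rw [this, ← hcount]
      ring
    have h8 := bad_le (N := N) β hβ hβ1
    have h9 : ∑ v, β v ^ 4 = (1 / 6 ^ D) ^ 3 := by
      show ∑ _v : B, ((1 : ℝ) / 6 ^ D) ^ 4 = _
      rw [Finset.sum_const, Finset.card_univ, nsmul_eq_mul, hcard]
      field_simp
    rw [h9] at h8
    have e216 : (216 : ℝ) ^ D = (6 ^ D) ^ 3 := by
      rw [← pow_mul, mul_comm, pow_mul]
      norm_num
    rw [h7, e216] at h6'
    rw [h3, h4, h6'] at h2
    have h10 : C * ∑ ℓ : Fin N → Fin 3 × B, PP.W 0 0 β ℓ * (if Bad ℓ then (1 : ℝ) else 0) ≤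
        C * ((N : ℝ) ^ 4 * (1 / 6 ^ D) ^ 3) := mul_le_mul_of_nonneg_left h8 hC0
    have h11 : (1 / 6 ^ D) ^ 3 * ((2 * (6 ^ D) ^ 3 + 5 * 6 ^ D) / 7) ≤
        2 / 7 + C * ((N : ℝ) ^ 4 * (1 / 6 ^ D) ^ 3) := by linarith
    have h12 := mul_le_mul_of_nonneg_right h11 (by positivity : (0 : ℝ) ≤ 7 * (6 ^ D) ^ 3)
    have e1 : (1 / (6 : ℝ) ^ D) ^ 3 * ((2 * (6 ^ D) ^ 3 + 5 * 6 ^ D) / 7) * (7 * (6 ^ D) ^ 3) =
        2 * (6 ^ D) ^ 3 + 5 * 6 ^ D := by
      field_simp
    have e2 : (2 / 7 + C * ((N : ℝ) ^ 4 * (1 / 6 ^ D) ^ 3)) * (7 * (6 ^ D) ^ 3) =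
        2 * (6 ^ D) ^ 3 + 7 * C * (N : ℝ) ^ 4 := by
      field_simp
    rw [e1, e2] at h12
    linarith
  obtain ⟨D, hD⟩ := pow_unbounded_of_one_lt (7 * C * (N : ℝ) ^ 4) (by norm_num : (1 : ℝ) < 6)
  have := key D
  have h6 : (0 : ℝ) < 6 ^ D := by positivity
  linarith

end Pool.Agent.Results.MP_139b40_co.FlagBarrierIterated
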